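import Mathlib
import Pool.Agent.Helper133.BULib

/-!
# A free action of a compact group on a commutative C*-algebra with infinite Rokhlin dimension

The compact group `G = ∏ₖ ℤ/2` acts on `X = ∏ₖ K k`, where `K k` is the `ℓ¹`-unit sphere of
`ℝ^(k+1)`, by the antipodal map in each coordinate.  The action is free, but the induced action on
`C(X)` has infinite Rokhlin dimension, by the Borsuk-Ulam theorem.
-/

namespace Pool.Agent.Results.MP_cd8fef_an.FreeInfiniteRokhlin

open Filter Topology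

/-- A continuous action of the topological group `G` on the C*-algebra `A` by `*`-automorphisms
(continuous in the point-norm topology). -/
structure CAction (G A : Type*) [Group G] [TopologicalSpace G] [CStarAlgebra A] where
  /-- the automorphism attached to a group element -/
  act : G → (A ≃⋆ₐ[ℂ] A)
  one : ∀ a : A, act 1 a = a
  mul : ∀ (g h : G) (a : A), act (g * h) a = act g (act h a)
  cont : ∀ a : A, Continuous fun g => act g a

/-- A bounded sequence in `A`, that is, an element of `ℓ^∞(ℕ, A)`. -/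
def Bdd {A : Type*} [NormedRing A] (a : ℕ → A) : Prop := ∃ C : ℝ, ∀ n, ‖a n‖ ≤ C

/-- Equality of two sequences modulo `c₀(ℕ, A)`. -/
def EqMod {A : Type*} [NormedRing A] (a b : ℕ → A) : Prop :=
  Tendsto (fun n => ‖a n - b n‖) atTop (𝓝 0)

/-- The action of `G` on `C(G)` by left translation, `(g f)(h) = f (g⁻¹ h)`. -/
noncomputable def leftTr {G : Type*} [Group G] [TopologicalSpace G] [IsTopologicalGroup G] (g : G)
    (f : C(G, ℂ)) : C(G, ℂ) :=
  ⟨fun h => f (g⁻¹ * h), f.continuous.comp (continuous_const.mul continuous_id)⟩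

/-- `Tower α Φ`: the map `Φ`, which sends `f ∈ C(G)` to a sequence in `A`, represents an
equivariant completely positive contractive order zero map from `C(G)` to the algebra
`A_{∞,α} ∩ A'`, where `A_∞ = ℓ^∞(ℕ, A) / c₀(ℕ, A)`. -/
structure Tower {G A : Type*} [Group G] [TopologicalSpace G] [IsTopologicalGroup G]
    [CompactSpace G] [CStarAlgebra A] (α : CAction G A) (Φ : C(G, ℂ) → ℕ → A) : Prop where
  /-- every value is a bounded sequence, i.e. represents an element of `A_∞` -/
  bdd : ∀ f, Bdd (Φ f)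
  /-- the induced map to `A_∞` is additive -/
  add : ∀ f g, EqMod (Φ (f + g)) (fun n => Φ f n + Φ g n)
  /-- the induced map to `A_∞` is homogeneous -/
  smul : ∀ (c : ℂ) (f : C(G, ℂ)), EqMod (Φ (c • f)) (fun n => c • Φ f n)
  /-- the induced map to `A_∞` is contractive (the norm of `A_∞` is the upper limit) -/
  contr : ∀ f, ∀ ε > (0 : ℝ), ∀ᶠ n in atTop, ‖Φ f n‖ ≤ ‖f‖ + ε
  /-- the induced map to `A_∞` is completely positive: for every `k` and every `k × k` matrix `F`
  over `C(G)`, the image of `F* F` is of the form `H* H` for a matrix `H` over `A_∞` -/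
  cp : ∀ (k : ℕ) (F : Matrix (Fin k) (Fin k) C(G, ℂ)),
    ∃ H : Fin k → Fin k → ℕ → A, (∀ i j, Bdd (H i j)) ∧
      ∀ i j, EqMod (Φ ((F.conjTranspose * F) i j)) (fun n => ∑ l, star (H l i n) * H l j n)
  /-- the induced map to `A_∞` has order zero: orthogonal positive elements `f* f`, `g* g` have
  orthogonal images -/
  order_zero : ∀ f g : C(G, ℂ), (star f * f) * (star g * g) = 0 →
    EqMod (fun n => Φ (star f * f) n * Φ (star g * g) n) (fun _ => 0)
  /-- the induced map to `A_∞` is equivariant -/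
  equivariant : ∀ (g : G) (f : C(G, ℂ)), EqMod (Φ (leftTr g f)) (fun n => α.act g (Φ f n))
  /-- the values lie in `A_{∞,α}`: the orbit map `g ↦ (α_∞)_g (φ f)` is norm continuous -/
  orbit_cont : ∀ (f : C(G, ℂ)) (g : G), ∀ ε > (0 : ℝ), ∀ᶠ h in 𝓝 g, ∀ᶠ n in atTop,
    ‖α.act h (Φ f n) - α.act g (Φ f n)‖ ≤ ε
  /-- the values lie in the commutant `A'` of the constant sequences -/
  central : ∀ (f : C(G, ℂ)) (a : A), EqMod (fun n => Φ f n * a) (fun n => a * Φ f n)

/-- The Rokhlin dimension of the action `α` is at most `d`. -/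
def RokLE {G A : Type*} [Group G] [TopologicalSpace G] [IsTopologicalGroup G]
    [CompactSpace G] [CStarAlgebra A] (α : CAction G A) (d : ℕ) : Prop :=
  ∃ Φ : Fin (d + 1) → C(G, ℂ) → ℕ → A,
    (∀ j, Tower α (Φ j)) ∧ EqMod (fun n => ∑ j, Φ j 1 n) (fun _ => 1)

/-! ## The action -/

open Pool.Agent.Helper133.BU

/-- The space: the product of the spheres `K k`. -/
abbrev XX : Type := (k : ℕ) → K k

/-- The group `∏ₖ ℤ/2`. -/
abbrev GG : Type := ℕ → ℤˣ

instance (k : ℕ) : CompactSpace (K k) := isCompact_iff_compactSpace.mp (K_compact k)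

/-- The sign of a unit of `ℤ` as a real number. -/
def sg (u : ℤˣ) : ℝ := ((u : ℤ) : ℝ)

theorem sg_abs (u : ℤˣ) : |sg u| = 1 := by
  rcases Int.units_eq_one_or u with h | h <;> simp [h, sg]

theorem smul_mem {k : ℕ} (u : ℤˣ) {x : Fin (k + 1) → ℝ} (hx : x ∈ K k) : sg u • x ∈ K k := by
  have hx' : ∑ i, |x i| = 1 := hx
  change ∑ i, |(sg u • x) i| = 1
  rw [← hx']
  refine Finset.sum_congr rfl fun i _ => ?_
  rw [Pi.smul_apply, smul_eq_mul, abs_mul, sg_abs, one_mul]

noncomputable instance instAct : MulAction GG XX where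
  smul g x := fun k => ⟨sg (g k) • (x k : Fin (k + 1) → ℝ), smul_mem (g k) (x k).2⟩
  one_smul x := by
    funext k
    apply Subtype.ext
    change sg ((1 : GG) k) • (x k : Fin (k + 1) → ℝ) = x k
    simp [sg]
  mul_smul g h x := by
    funext k
    apply Subtype.ext
    change sg ((g * h) k) • (x k : Fin (k + 1) → ℝ) = sg (g k) • (sg (h k) • (x k : Fin (k + 1) → ℝ))
    rw [smul_smul]
    congr 1
    simp [sg]

theorem smul_val (g : GG) (x : XX) (k : ℕ) :
    ((g • x) k : Fin (k + 1) → ℝ) = sg (g k) • (x k : Fin (k + 1) → ℝ) := rfl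

instance : ContinuousSMul GG XX where
  continuous_smul := by
    refine continuous_pi fun k => ?_
    refine Continuous.subtype_mk ?_ _
    have h1 : Continuous fun p : GG × XX => sg (p.1 k) := by
      have : Continuous sg := continuous_of_discreteTopology
      exact this.comp ((continuous_apply k).comp continuous_fst)
    have h2 : Continuous fun p : GG × XX => (p.2 k : Fin (k + 1) → ℝ) :=
      continuous_subtype_val.comp ((continuous_apply k).comp continuous_snd)
    exact h1.smul h2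

theorem free (g : GG) (x : XX) (h : g • x = x) : g = 1 := by
  funext k
  rcases Int.units_eq_one_or (g k) with h1 | h1
  · exact h1
  · exfalso
    have h2 : ((g • x) k : Fin (k + 1) → ℝ) = (x k : Fin (k + 1) → ℝ) := by rw [h]
    rw [smul_val, h1] at h2
    have h3 : ∀ i, (x k : Fin (k + 1) → ℝ) i = 0 := by
      intro i
      have := congrFun h2 i
      simp [sg] at this
      linarith
    have h4 : ∑ i, |(x k : Fin (k + 1) → ℝ) i| = 1 := (x k).2
    simp [h3] at h4

/-- The action of `G` on `C(X)` induced by a continuous action on `X`. -/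
noncomputable def indAct (G X : Type) [Group G] [TopologicalSpace G] [TopologicalSpace X]
    [CompactSpace X] [MulAction G X] [IsTopologicalGroup G] [ContinuousSMul G X] :
    CAction G C(X, ℂ) where
  act g := (Homeomorph.smul (g⁻¹) : X ≃ₜ X).compStarAlgEquiv' ℂ ℂ
  one f := by
    ext x
    simp
  mul g h f := by
    ext x
    simp [mul_smul]
  cont f := by
    let F : C(G × X, ℂ) := ⟨fun p => f (p.1⁻¹ • p.2), by fun_prop⟩
    exact (ContinuousMap.curry F).continuous

theorem indAct_apply (G X : Type) [Group G] [TopologicalSpace G] [TopologicalSpace X]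
    [CompactSpace X] [MulAction G X] [IsTopologicalGroup G] [ContinuousSMul G X] (g : G)
    (f : C(X, ℂ)) (x : X) : (indAct G X).act g f x = f (g⁻¹ • x) := rfl


/-! ## The topological core -/

/-- The element of `G` acting by the antipodal map in coordinate `k` only. -/
def sig (k : ℕ) : GG := Pi.mulSingle k (-1)

theorem sig_same (k : ℕ) : sig k k = -1 := by simp [sig]

theorem sig_inv (k : ℕ) : (sig k)⁻¹ = sig k := by
  funext i
  rcases Int.units_eq_one_or (sig k i) with h | h <;> simp [h]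

theorem sig_mul (k : ℕ) : sig k * sig k = 1 := by
  rw [mul_eq_one_iff_eq_inv, sig_inv]

theorem sig_smul_smul (k : ℕ) (x : XX) : sig k • sig k • x = x := by
  rw [smul_smul, sig_mul, one_smul]

/-- The base point of `K k`. -/
theorem K_nonempty (k : ℕ) : (K k).Nonempty := by
  refine ⟨Pi.single 0 1, ?_⟩
  change ∑ i, |(Pi.single 0 1 : Fin (k + 1) → ℝ) i| = 1
  rw [Finset.sum_eq_single 0]
  · simp
  · intro b _ hb
    simp [hb]
  · simp

theorem neg_mem_K {k : ℕ} {x : Fin (k + 1) → ℝ} (hx : x ∈ K k) : -x ∈ K k := by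
  have hx' : ∑ i, |x i| = 1 := hx
  change ∑ i, |(-x) i| = 1
  rw [← hx']
  exact Finset.sum_congr rfl fun i _ => by simp

/-- A family of `d + 1` real continuous functions on `X` that are odd under the antipodal map of
the coordinate `d + 1` has a common zero. -/
theorem common_zero (d : ℕ) (H : Fin (d + 1) → XX → ℝ) (hc : ∀ j, Continuous (H j))
    (hodd : ∀ j x, H j (sig (d + 1) • x) = -H j x) : ∃ x : XX, ∀ j, H j x = 0 := by
  classical
  -- a base point
  let x0 : XX := fun k => ⟨(K_nonempty k).some, (K_nonempty k).some_mem⟩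
  let emb : K (d + 1) → XX := fun v => Function.update x0 (d + 1) v
  have hemb : Continuous emb := continuous_const.update (d + 1) continuous_id
  have hneg : ∀ v : K (d + 1), emb ⟨-(v : Fin (d + 1 + 1) → ℝ), neg_mem_K v.2⟩ =
      sig (d + 1) • emb v := by
    intro v
    funext k
    apply Subtype.ext
    rw [smul_val]
    by_cases hk : k = d + 1
    · subst hk
      rw [sig_same]
      simp [emb, sg]
    · have h1 : sig (d + 1) k = 1 := by simp [sig, hk]
      rw [h1]
      simp [emb, sg, hk]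
  let f0 : C(K (d + 1), Fin (d + 1) → ℝ) :=
    ⟨fun v j => H j (emb v), continuous_pi fun j => (hc j).comp hemb⟩
  obtain ⟨f1, hf1⟩ := ContinuousMap.exists_restrict_eq (K_compact (d + 1)).isClosed f0
  have hf1' : ∀ v : K (d + 1), f1 (v : Fin (d + 1 + 1) → ℝ) = fun j => H j (emb v) := by
    intro v
    exact DFunLike.congr_fun hf1 v
  let f : (Fin (d + 1 + 1) → ℝ) → (Fin (d + 1) → ℝ) := fun x => f1 x - f1 (-x)
  have hfc : Continuous f := by
    have := f1.continuous
    fun_prop
  have hfo : ∀ x, f (-x) = -f x := by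
    intro x
    simp [f]
  obtain ⟨x, hxK, hx⟩ := borsuk_ulam (d + 1) f hfc hfo
  refine ⟨emb ⟨x, hxK⟩, fun j => ?_⟩
  have h1 := hf1' ⟨x, hxK⟩
  have h2 := hf1' ⟨-x, neg_mem_K hxK⟩
  have h3 : f1 x - f1 (-x) = 0 := hx
  have h4 := congrFun h3 j
  simp only at h1 h2
  rw [Pi.sub_apply, h1, h2] at h4
  have h5 := hneg ⟨x, hxK⟩
  simp only at h5
  simp only [Pi.zero_apply] at h4
  rw [h5, hodd j] at h4
  linarith

/-- The quantitative core. -/
theorem core (d : ℕ) (u w : Fin (d + 1) → C(XX, ℂ)) (η : ℝ) (hη : η = 1 / (4 * (d + 2)))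
    (h1 : ∀ j x, |(u j x).im| ≤ η ^ 2) (h2 : ∀ j x, |(w j x).im| ≤ η ^ 2)
    (h3 : ∀ j x, ‖u j x * w j x‖ ≤ η ^ 2)
    (h4 : ∀ j x, ‖w j x - u j (sig (d + 1) • x)‖ ≤ η ^ 2)
    (h5 : ∀ x, ‖(∑ j, (u j x + w j x)) - 1‖ ≤ (d + 2) * η ^ 2) : False := by
  have hd : (0 : ℝ) ≤ d := Nat.cast_nonneg d
  have hη0 : 0 < η := by rw [hη]; positivity
  have hη1 : η * (4 * (d + 2)) = 1 := by rw [hη]; field_simp
  have hη2 : η ≤ 1 / 8 := by
    rw [hη]
    apply one_div_le_one_div_of_le <;> linarith
  have he : η ^ 2 ≤ 1 := by nlinarith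
  -- the odd functions
  let h : Fin (d + 1) → XX → ℝ := fun j x => (u j x).re - (w j x).re
  have hhc : ∀ j, Continuous (h j) := fun j =>
    (Complex.continuous_re.comp (u j).continuous).sub (Complex.continuous_re.comp (w j).continuous)
  obtain ⟨x, hx⟩ := common_zero d (fun j x => h j x - h j (sig (d + 1) • x))
    (fun j => (hhc j).sub ((hhc j).comp (continuous_const_smul _)))
    (fun j x => by simp only [sig_smul_smul]; ring)
  have key : ∀ j, (u j x).re + (w j x).re ≤ 3 * η := by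
    intro j
    have e1 : h j x = h j (sig (d + 1) • x) := by
      have := hx j
      linarith
    have e2 := (Complex.abs_re_le_norm _).trans (h4 j x)
    have e3 := (Complex.abs_re_le_norm _).trans (h4 j (sig (d + 1) • x))
    rw [sig_smul_smul] at e3
    rw [Complex.sub_re] at e2 e3
    have e4 : h j x = (u j x).re - (w j x).re := rfl
    have e5 : h j (sig (d + 1) • x) =
      (u j (sig (d + 1) • x)).re - (w j (sig (d + 1) • x)).re := rfl
    obtain ⟨e2a, e2b⟩ := abs_le.mp e2
    obtain ⟨e3a, e3b⟩ := abs_le.mp e3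
    have e6 : |(u j x).re - (w j x).re| ≤ η ^ 2 := by
      rw [abs_le]
      constructor <;> linarith
    have e7 := (Complex.abs_re_le_norm _).trans (h3 j x)
    rw [Complex.mul_re] at e7
    have e8 : |(u j x).im * (w j x).im| ≤ η ^ 2 * η ^ 2 := by
      rw [abs_mul]
      exact mul_le_mul (h1 j x) (h2 j x) (abs_nonneg _) (by positivity)
    have e9 : (u j x).re * (w j x).re ≤ η ^ 2 + η ^ 2 * η ^ 2 := by
      have a1 := (abs_le.mp e7).2
      have a2 := (abs_le.mp e8).2
      linarith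
    have e10 : ((u j x).re - (w j x).re) ^ 2 ≤ (η ^ 2) ^ 2 := by
      apply sq_le_sq'
      · exact (abs_le.mp e6).1
      · exact (abs_le.mp e6).2
    have e11 : ((u j x).re + (w j x).re) ^ 2 ≤ (3 * η) ^ 2 := by
      have : ((u j x).re + (w j x).re) ^ 2 =
        ((u j x).re - (w j x).re) ^ 2 + 4 * ((u j x).re * (w j x).re) := by ring
      rw [this]
      nlinarith [sq_nonneg η, mul_nonneg (sq_nonneg η) (sub_nonneg.mpr he)]
    exact (abs_le.mp (abs_le_of_sq_le_sq e11 (by positivity))).2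
  have s1 : ∑ j : Fin (d + 1), ((u j x).re + (w j x).re) ≤ (d + 1) * (3 * η) := by
    calc ∑ j : Fin (d + 1), ((u j x).re + (w j x).re) ≤ ∑ _j : Fin (d + 1), 3 * η :=
          Finset.sum_le_sum fun j _ => key j
      _ = (d + 1) * (3 * η) := by simp
  have s2 := (Complex.abs_re_le_norm _).trans (h5 x)
  rw [Complex.sub_re, Complex.re_sum, Complex.one_re] at s2
  simp only [Complex.add_re] at s2
  have s3 := (abs_le.mp s2).1
  have s4 : (d + 2) * η ^ 2 = η / 4 := by
    have : (d + 2) * η ^ 2 = (η * (4 * (d + 2))) * η / 4 := by ring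
    rw [this, hη1]; ring
  have s5 : (d + 1) * (3 * η) = 3 / 4 - 3 * η := by
    have : ((d : ℝ) + 1) * (3 * η) = (η * (4 * (d + 2))) * (3 / 4) - 3 * η := by ring
    rw [this, hη1]; ring
  linarith

/-! ## From Rokhlin towers to the core -/

/-- The indicator function of the subgroup `{g | g k = 1}`. -/
noncomputable def e0 (k : ℕ) : C(GG, ℂ) :=
  ⟨fun g => if g k = 1 then 1 else 0,
    (continuous_of_discreteTopology (f := fun u : ℤˣ => if u = 1 then (1 : ℂ) else 0)).comp
      (continuous_apply k)⟩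

/-- The indicator function of the set `{g | g k ≠ 1}`. -/
noncomputable def e1 (k : ℕ) : C(GG, ℂ) :=
  ⟨fun g => if g k = 1 then 0 else 1,
    (continuous_of_discreteTopology (f := fun u : ℤˣ => if u = 1 then (0 : ℂ) else 1)).comp
      (continuous_apply k)⟩

theorem e0_star (k : ℕ) : star (e0 k) * e0 k = e0 k := by
  ext g
  by_cases h : g k = 1 <;> simp [e0, h]

theorem e1_star (k : ℕ) : star (e1 k) * e1 k = e1 k := by
  ext g
  by_cases h : g k = 1 <;> simp [e1, h]

theorem e0_mul_e1 (k : ℕ) : e0 k * e1 k = 0 := by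
  ext g
  by_cases h : g k = 1 <;> simp [e0, e1, h]

theorem e0_add_e1 (k : ℕ) : e0 k + e1 k = 1 := by
  ext g
  by_cases h : g k = 1 <;> simp [e0, e1, h]

theorem leftTr_e0 (k : ℕ) : leftTr (sig k) (e0 k) = e1 k := by
  ext g
  change (if ((sig k)⁻¹ * g) k = 1 then (1 : ℂ) else 0) = if g k = 1 then 0 else 1
  rw [sig_inv, Pi.mul_apply, sig_same]
  rcases Int.units_eq_one_or (g k) with h | h <;> simp [h]

theorem EqMod.ev {a b : ℕ → C(XX, ℂ)} (h : EqMod a b) {ε : ℝ} (hε : 0 < ε) :
    ∀ᶠ n in atTop, ∀ x, ‖a n x - b n x‖ ≤ ε := by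
  have h1 : ∀ᶠ n in atTop, ‖a n - b n‖ < ε := (tendsto_order.mp h).2 ε hε
  filter_upwards [h1] with n hn x
  have := ContinuousMap.norm_coe_le_norm (a n - b n) x
  rw [ContinuousMap.sub_apply] at this
  linarith

theorem im_small {Φ : C(GG, ℂ) → ℕ → C(XX, ℂ)} (hT : Tower (indAct GG XX) Φ) (e : C(GG, ℂ))
    (he : star e * e = e) {ε : ℝ} (hε : 0 < ε) :
    ∀ᶠ n in atTop, ∀ x, |(Φ e n x).im| ≤ ε := by
  obtain ⟨H, -, hH⟩ := hT.cp 1 (Matrix.of fun _ _ => e)
  have h1 := hH 0 0
  have h2 : ((Matrix.of fun _ _ => e : Matrix (Fin 1) (Fin 1) C(GG, ℂ)).conjTranspose *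
      (Matrix.of fun _ _ => e : Matrix (Fin 1) (Fin 1) C(GG, ℂ))) 0 0 = e := by
    rw [Matrix.mul_apply]
    simp [Matrix.conjTranspose_apply, he]
  rw [h2] at h1
  filter_upwards [h1.ev hε] with n hn x
  have h3 := hn x
  have h4 : (∑ l : Fin 1, star (H l 0 n) * H l 0 n) x = star (H 0 0 n x) * H 0 0 n x := by
    simp
  rw [h4] at h3
  have h5 := (Complex.abs_im_le_norm _).trans h3
  have h6 : (star (H 0 0 n x) * H 0 0 n x).im = 0 := by
    simp [Complex.mul_im]
    ring
  rw [Complex.sub_im, h6, sub_zero] at h5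
  exact h5

theorem not_RokLE (d : ℕ) : ¬ RokLE (indAct GG XX) d := by
  rintro ⟨Φ, hT, hsum⟩
  set η : ℝ := 1 / (4 * (d + 2)) with hη
  have hη0 : 0 < η := by rw [hη]; positivity
  have hε : 0 < η ^ 2 := by positivity
  have E1 : ∀ᶠ n in atTop, ∀ j, ∀ x, |(Φ j (e0 (d + 1)) n x).im| ≤ η ^ 2 :=
    eventually_all.mpr fun j => im_small (hT j) _ (e0_star (d + 1)) hε
  have E2 : ∀ᶠ n in atTop, ∀ j, ∀ x, |(Φ j (e1 (d + 1)) n x).im| ≤ η ^ 2 :=
    eventually_all.mpr fun j => im_small (hT j) _ (e1_star (d + 1)) hε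
  have E3 : ∀ᶠ n in atTop, ∀ j, ∀ x, ‖Φ j (e0 (d + 1)) n x * Φ j (e1 (d + 1)) n x‖ ≤ η ^ 2 := by
    refine eventually_all.mpr fun j => ?_
    have h := (hT j).order_zero (e0 (d + 1)) (e1 (d + 1)) (by rw [e0_star, e1_star, e0_mul_e1])
    rw [e0_star, e1_star] at h
    filter_upwards [h.ev hε] with n hn x
    have := hn x
    simpa using this
  have E4 : ∀ᶠ n in atTop, ∀ j, ∀ x, ‖Φ j (e1 (d + 1)) n x - Φ j (e0 (d + 1)) n (sig (d + 1) • x)‖ ≤ η ^ 2 := by
    refine eventually_all.mpr fun j => ?_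
    have h := (hT j).equivariant (sig (d + 1)) (e0 (d + 1))
    rw [leftTr_e0] at h
    filter_upwards [h.ev hε] with n hn x
    have := hn x
    rw [indAct_apply, sig_inv] at this
    exact this
  have E5 : ∀ᶠ n in atTop, ∀ j, ∀ x,
      ‖Φ j 1 n x - (Φ j (e0 (d + 1)) n x + Φ j (e1 (d + 1)) n x)‖ ≤ η ^ 2 := by
    refine eventually_all.mpr fun j => ?_
    have h := (hT j).add (e0 (d + 1)) (e1 (d + 1))
    rw [e0_add_e1] at h
    exact h.ev hε
  have E6 := hsum.ev hε
  obtain ⟨n, h1, h2, h3, h4, h5, h6⟩ :=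
    (E1.and (E2.and (E3.and (E4.and (E5.and E6))))).exists
  refine core d (fun j => Φ j (e0 (d + 1)) n) (fun j => Φ j (e1 (d + 1)) n) η hη h1 h2 h3 h4 ?_
  intro x
  have h7 := h6 x
  have h8 : (∑ j, Φ j 1 n) x = ∑ j, Φ j 1 n x := by simp
  have h9 : (1 : C(XX, ℂ)) x = 1 := rfl
  simp only [h8, h9] at h7
  have h10 : (∑ j, (Φ j (e0 (d + 1)) n x + Φ j (e1 (d + 1)) n x)) - 1 =
      ((∑ j, Φ j 1 n x) - 1) - ∑ j, (Φ j 1 n x - (Φ j (e0 (d + 1)) n x + Φ j (e1 (d + 1)) n x)) := by
    rw [Finset.sum_sub_distrib]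
    ring
  rw [h10]
  calc ‖((∑ j, Φ j 1 n x) - 1) - ∑ j, (Φ j 1 n x - (Φ j (e0 (d + 1)) n x + Φ j (e1 (d + 1)) n x))‖
      ≤ ‖(∑ j, Φ j 1 n x) - 1‖ + ‖∑ j, (Φ j 1 n x - (Φ j (e0 (d + 1)) n x + Φ j (e1 (d + 1)) n x))‖ :=
        norm_sub_le _ _
    _ ≤ η ^ 2 + ∑ j : Fin (d + 1), η ^ 2 := by
        refine add_le_add h7 ((norm_sum_le _ _).trans (Finset.sum_le_sum fun j _ => h5 j x))
    _ = (d + 2) * η ^ 2 := by
        simp
        ring

/-- There are a compact (metrizable, abelian, totally disconnected) group `G`, a compact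
(metrizable) space `X` and a continuous action `α` of `G` on the C*-algebra `C(X)` such that the
induced action of `G` on `X` is free, but the Rokhlin dimension of `α` is infinite. -/
theorem result : ∃ (G X : Type) (_ : CommGroup G) (_ : TopologicalSpace G)
    (_ : IsTopologicalGroup G) (_ : CompactSpace G) (_ : T2Space G)
    (_ : TotallyDisconnectedSpace G) (_ : SecondCountableTopology G)
    (_ : TopologicalSpace X) (_ : CompactSpace X) (_ : T2Space X)
    (_ : SecondCountableTopology X) (_ : MulAction G X) (_ : ContinuousSMul G X)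
    (α : CAction G C(X, ℂ)),
    (∀ (g : G) (f : C(X, ℂ)) (x : X), α.act g f x = f (g⁻¹ • x)) ∧
    (∀ (g : G) (x : X), g • x = x → g = 1) ∧
    ∀ d : ℕ, ¬ RokLE α d :=
  ⟨GG, XX, inferInstance, inferInstance, inferInstance, inferInstance, inferInstance,
    inferInstance, inferInstance, inferInstance, inferInstance, inferInstance, inferInstance,
    inferInstance, inferInstance, indAct GG XX, indAct_apply GG XX, free, not_RokLE⟩

end Pool.Agent.Results.MP_cd8fef_an.FreeInfiniteRokhlin
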